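import Pool.Agent.E8helper83.AX.C2G

/-! # AX piece C2H: the case of order `M + 1`. -/

set_option autoImplicit false

open Polynomial

namespace Pool.Agent.E8helper54.AX

open Pool.Agent.E8helper83.AX Pool.Agent.E8helper64.AX

/-! ## uniqueness -/

theorem core_zeroE {m N : ℕ} (E : ℕ → ℕ) (d : ℕ → ℕ → ℚ)
    (h1 : ∀ i ≤ N, ∃ r : ℚ[X], r.natDegree ≤ i ∧
      ∀ t ≤ N, d t i = ((1 - X) ^ (m - 2 * i) * r).coeff t)
    (h2 : ∀ t ≤ N, ∃ g : ℚ[X], g.natDegree ≤ t - 1 ∧
      ∀ i ≤ N, d t i = ((1 + X) ^ (E t) * g).coeff i)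
    (h0 : d 0 0 = 0) : ∀ i ≤ N, ∀ t ≤ N, d t i = 0 := by
  intro i
  induction i using Nat.strong_induction_on with
  | _ i ih =>
    intro hi
    have hsmall : ∀ t ≤ i, d t i = 0 := by
      intro t ht
      rcases Nat.eq_zero_or_pos i with h | hpos
      · subst h
        obtain rfl : t = 0 := by omega
        exact h0
      · obtain ⟨g, hg, hgc⟩ := h2 t (by omega)
        have hg0 : g = 0 := by
          apply zero_of_coeff cop2 (E t) i g
          · intro j hj
            rw [← hgc j (by omega)]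
            exact ih j hj (by omega) t (by omega)
          · omega
        rw [hgc i hi, hg0, mul_zero, coeff_zero]
    obtain ⟨r, hr, hrc⟩ := h1 i hi
    have hr0 : r = 0 := by
      apply zero_of_coeff cop1 (m - 2 * i) (i + 1) r
      · intro t ht
        rw [← hrc t (by omega)]
        exact hsmall t (by omega)
      · omega
    intro t ht
    rw [hrc t ht, hr0, mul_zero, coeff_zero]

theorem core_of_solE {m N : ℕ} (E : ℕ → ℕ) (b b' : ℕ → ℕ → ℚ)
    (h1 : ∀ i ≤ N, ∃ r : ℚ[X], r.natDegree ≤ i ∧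
      (∀ t ≤ N, b t i = ((1 - X) ^ (m - 2 * i) * r).coeff t) ∧ (i = N → r.eval 1 = 0))
    (h2 : ∀ t ≤ N, ∃ g : ℚ[X], g.natDegree ≤ t - 1 ∧
      ∀ i ≤ N, b t i = ((1 + X) ^ (E t) * g).coeff i)
    (h1' : ∀ i ≤ N, ∃ r : ℚ[X], r.natDegree ≤ i ∧
      (∀ t ≤ N, b' t i = ((1 - X) ^ (m - 2 * i) * r).coeff t) ∧ (i = N → r.eval 1 ≠ 0))
    (h2' : ∀ t ≤ N, ∃ g : ℚ[X], g.natDegree ≤ t - 1 ∧
      ∀ i ≤ N, b' t i = ((1 + X) ^ (E t) * g).coeff i) :
    b 0 0 = 0 := by
  have hlin : ∀ (u r r' : ℚ[X]) (e t : ℕ), (u ^ e * (C (b' 0 0) * r - C (b 0 0) * r')).coeff t =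
      b' 0 0 * (u ^ e * r).coeff t - b 0 0 * (u ^ e * r').coeff t := by
    intro u r r' e t
    rw [show u ^ e * (C (b' 0 0) * r - C (b 0 0) * r') =
      C (b' 0 0) * (u ^ e * r) - C (b 0 0) * (u ^ e * r') by ring, coeff_sub, coeff_C_mul,
      coeff_C_mul]
  have hdeg : ∀ (r r' : ℚ[X]) (k : ℕ), r.natDegree ≤ k → r'.natDegree ≤ k →
      (C (b' 0 0) * r - C (b 0 0) * r').natDegree ≤ k := by
    intro r r' k hr hr'
    refine (natDegree_sub_le _ _).trans (max_le ?_ ?_)
    · exact (natDegree_C_mul_le _ _).trans hr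
    · exact (natDegree_C_mul_le _ _).trans hr'
  have hd := core_zeroE (m := m) (N := N) E
    (fun t i => b' 0 0 * b t i - b 0 0 * b' t i) (by
      intro i hi
      obtain ⟨r, hr, hrc, -⟩ := h1 i hi
      obtain ⟨r', hr', hrc', -⟩ := h1' i hi
      refine ⟨C (b' 0 0) * r - C (b 0 0) * r', hdeg r r' i hr hr', ?_⟩
      intro t ht
      rw [hlin, ← hrc t ht, ← hrc' t ht]) (by
      intro t ht
      obtain ⟨g, hg, hgc⟩ := h2 t ht
      obtain ⟨g', hg', hgc'⟩ := h2' t ht
      refine ⟨C (b' 0 0) * g - C (b 0 0) * g', hdeg g g' (t - 1) hg hg', ?_⟩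
      intro i hi
      rw [hlin, ← hgc i hi, ← hgc' i hi]) (by
      show b' 0 0 * b 0 0 - b 0 0 * b' 0 0 = 0
      ring)
  obtain ⟨r, hr, hrc, hre⟩ := h1 N le_rfl
  obtain ⟨r', hr', hrc', hre'⟩ := h1' N le_rfl
  have hR : C (b' 0 0) * r - C (b 0 0) * r' = 0 := by
    apply zero_of_coeff cop1 (m - 2 * N) (N + 1)
    · intro t ht
      rw [hlin, ← hrc t (by omega), ← hrc' t (by omega)]
      exact hd N le_rfl t (by omega)
    · have := hdeg r r' N hr hr'
      omega
  have he := congrArg (eval 1) hR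
  rw [eval_sub, eval_mul, eval_mul, eval_C, eval_C, hre rfl, mul_zero, zero_sub, eval_zero,
    neg_eq_zero] at he
  exact (mul_eq_zero.mp he).resolve_right (hre' rfl)

/-! ## the two structures, with truncation -/

/-- the two structures, up to order `L` -/
structure GoodH (L m h : ℕ) (gt : ℚ) (c : ℕ → ℚ) (a a' : ℕ → ℚ[X]) : Prop where
  rel : ∀ i ≤ L, ∀ t ≤ L, (a i).coeff t = (a' t).coeff i
  s1 : ∀ i ≤ L, ∃ ρ : ℚ[X], ρ.natDegree ≤ i ∧
    (X ^ (L + 1) ∣ (1 - X) ^ (2 * i) * a i - (1 - X) ^ m * ρ) ∧ ρ.eval 1 = c i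
  s2 : ∀ t ≤ L, ∃ g : ℚ[X], g.natDegree ≤ t - 1 ∧
    (1 + X) ^ (2 * t) * a' t = (1 + X) ^ h * g ∧ (t = 0 → g = 1) ∧ (t = L → g.coeff (L - 1) = gt)

theorem GoodH.mul {L m₁ h₁ m₂ h₂ : ℕ} {t₁ t₂ : ℚ} {c₁ c₂ : ℕ → ℚ} {a a' b b' : ℕ → ℚ[X]}
    (hL : 2 ≤ L) (G : GoodH L m₁ h₁ t₁ c₁ a a') (H : GoodH L m₂ h₂ t₂ c₂ b b') :
    GoodH L (m₁ + m₂) (h₁ + h₂) (t₁ + t₂) (cp c₁ c₂) (cp a b) (cp a' b') := by
  refine ⟨?_, ?_, ?_⟩
  · intro i hi t ht
    unfold cp
    rw [Polynomial.finsetSum_coeff, Polynomial.finsetSum_coeff]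
    have e1 : ∀ x ∈ Finset.HasAntidiagonal.antidiagonal i, (a x.1 * b x.2).coeff t =
        ∑ y ∈ Finset.HasAntidiagonal.antidiagonal t, (a' y.1).coeff x.1 * (b' y.2).coeff x.2 := by
      intro x hx
      rw [Polynomial.coeff_mul]
      refine Finset.sum_congr rfl fun y hy => ?_
      have hx' := ad hx
      have hy' := ad hy
      rw [G.rel x.1 (by omega) y.1 (by omega), H.rel x.2 (by omega) y.2 (by omega)]
    have e2 : ∀ y ∈ Finset.HasAntidiagonal.antidiagonal t, (a' y.1 * b' y.2).coeff i =
        ∑ x ∈ Finset.HasAntidiagonal.antidiagonal i, (a' y.1).coeff x.1 * (b' y.2).coeff x.2 :=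
      fun y _ => Polynomial.coeff_mul _ _ _
    rw [Finset.sum_congr rfl e1, Finset.sum_congr rfl e2, Finset.sum_comm]
  · have hr₁ := G.s1
    have hr₂ := H.s1
    choose! ρ₁ hd₁ he₁ hv₁ using hr₁
    choose! ρ₂ hd₂ he₂ hv₂ using hr₂
    intro i hi
    refine ⟨cp ρ₁ ρ₂ i, ?_, ?_, ?_⟩
    · refine Polynomial.natDegree_sum_le_of_forall_le _ _ fun x hx => ?_
      have hx' := ad hx
      have d1 := hd₁ x.1 (by omega)
      have d2 := hd₂ x.2 (by omega)
      exact (Polynomial.natDegree_mul_le).trans (by omega)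
    · unfold cp
      rw [Finset.mul_sum, Finset.mul_sum, ← Finset.sum_sub_distrib]
      refine Finset.dvd_sum fun x hx => ?_
      have hx' := ad hx
      have e1 := he₁ x.1 (by omega)
      have e2 := he₂ x.2 (by omega)
      have e3 : (1 - X : ℚ[X]) ^ (2 * i) * (a x.1 * b x.2) -
          (1 - X) ^ (m₁ + m₂) * (ρ₁ x.1 * ρ₂ x.2) =
          ((1 - X) ^ (2 * x.1) * a x.1 - (1 - X) ^ m₁ * ρ₁ x.1) * ((1 - X) ^ (2 * x.2) * b x.2) +
          ((1 - X) ^ m₁ * ρ₁ x.1) * ((1 - X) ^ (2 * x.2) * b x.2 - (1 - X) ^ m₂ * ρ₂ x.2) := by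
        rw [← hx']
        ring
      rw [e3]
      exact dvd_add (e1.mul_right _) (e2.mul_left _)
    · unfold cp
      rw [Polynomial.eval_finsetSum]
      refine Finset.sum_congr rfl fun x hx => ?_
      have hx' := ad hx
      rw [Polynomial.eval_mul, hv₁ x.1 (by omega), hv₂ x.2 (by omega)]
  · have hr₁ := G.s2
    have hr₂ := H.s2
    choose! g₁ hd₁ he₁ hz₁ hT₁ using hr₁
    choose! g₂ hd₂ he₂ hz₂ hT₂ using hr₂
    intro t ht
    refine ⟨cp g₁ g₂ t, ?_, cp_id ht he₁ he₂, ?_, ?_⟩
    · refine Polynomial.natDegree_sum_le_of_forall_le _ _ fun x hx => ?_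
      have hx' := ad hx
      have d1 := hd₁ x.1 (by omega)
      have d2 := hd₂ x.2 (by omega)
      exact (Polynomial.natDegree_mul_le).trans (by omega)
    · intro h0
      subst h0
      unfold cp
      rw [Finset.Nat.antidiagonal_zero, Finset.sum_singleton, hz₁ 0 (by omega) rfl,
        hz₂ 0 (by omega) rfl, one_mul]
    · intro h0
      subst h0
      unfold cp
      rw [Polynomial.finsetSum_coeff, Finset.sum_eq_add_of_mem (t, 0) (0, t)]
      · simp only
        rw [hz₂ 0 (by omega) rfl, hz₁ 0 (by omega) rfl, mul_one, one_mul, hT₁ t le_rfl rfl,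
          hT₂ t le_rfl rfl]
      · rw [Finset.HasAntidiagonal.mem_antidiagonal]
        simp
      · rw [Finset.HasAntidiagonal.mem_antidiagonal]
        simp
      · intro h
        have := congrArg Prod.fst h
        simp only at this
        omega
      · rintro ⟨x, y⟩ hx ⟨hx1, hx2⟩
        have hx' := ad hx
        simp only at hx'
        have hx0 : x ≠ 0 := by
          rintro rfl
          apply hx2
          rw [Prod.mk.injEq]
          omega
        have hy0 : y ≠ 0 := by
          rintro rfl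
          apply hx1
          rw [Prod.mk.injEq]
          omega
        have d1 := hd₁ x (by omega)
        have d2 := hd₂ y (by omega)
        apply Polynomial.coeff_eq_zero_of_natDegree_lt
        refine lt_of_le_of_lt Polynomial.natDegree_mul_le ?_
        simp only
        omega

/-- the values at one -/
def cu (i : ℕ) : ℚ := if i = 0 then 1 else 0

theorem goodH_un (L : ℕ) (hL : 2 ≤ L) : GoodH L 0 0 0 cu un un := by
  refine ⟨?_, ?_, ?_⟩
  · exact (good_un L).rel
  · intro i _
    refine ⟨un i, ?_, ?_, ?_⟩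
    · unfold un
      split_ifs
      · rw [Polynomial.natDegree_one]; omega
      · rw [Polynomial.natDegree_zero]; omega
    · unfold un
      split_ifs with h
      · subst h
        simp
      · simp
    · unfold un cu
      split_ifs
      · rw [Polynomial.eval_one]
      · rw [Polynomial.eval_zero]
  · intro t _
    refine ⟨un t, ?_, ?_, ?_, ?_⟩
    · unfold un
      split_ifs
      · rw [Polynomial.natDegree_one]; omega
      · rw [Polynomial.natDegree_zero]; omega
    · unfold un
      split_ifs with h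
      · subst h
        simp
      · simp
    · intro h
      unfold un
      rw [if_pos h]
    · intro h
      unfold un
      rw [if_neg (by omega), Polynomial.coeff_zero]

theorem PB_zero (m : ℕ) : PB m 0 = (1 + X) ^ (m + 1) := by
  unfold PB B
  rw [pow_zero, one_mul, ← bin X (m + 1) (m + 2) (by omega)]
  refine Finset.sum_congr rfl fun i _ => ?_
  rw [Nat.choose_zero_right, one_mul, Nat.sub_zero]

/-- the values for `P_M` -/
def cP (M i : ℕ) : ℚ := if i = M + 1 then (-1) ^ (M + 1) else ((M - i).choose i : ℚ)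

theorem PA_top (M : ℕ) : PA M (M + 1) = 1 := by
  unfold PA B
  rw [Finset.sum_eq_single 0]
  · simp
  · intro t _ ht
    rw [show M - (M + 1) = 0 by omega, Nat.choose_eq_zero_of_lt (show 0 < t by omega), zero_mul,
      Nat.cast_zero, zero_mul]
  · intro h
    exact absurd (Finset.mem_range.2 (by omega)) h

theorem PB_top (M : ℕ) : PB M (M + 1) = 0 := by
  unfold PB B
  rw [Finset.sum_eq_zero, mul_zero]
  intro i _
  rw [Nat.choose_eq_zero_of_lt (show M - i < M + 1 by omega), zero_mul, Nat.cast_zero, zero_mul]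

theorem PB_self (m : ℕ) (hm : 1 ≤ m) : PB m m = C ((-1) ^ m) := by
  unfold PB B
  rw [Finset.sum_eq_single 0]
  · rw [Nat.sub_zero, Nat.choose_self, one_mul, Nat.choose_zero_right, Nat.cast_one, one_mul,
      pow_zero, mul_one, C_pow, C_neg, C_1]
  · intro t _ ht
    rw [Nat.choose_eq_zero_of_lt (show m - t < m by omega), zero_mul, Nat.cast_zero, zero_mul]
  · intro h
    exact absurd (Finset.mem_range.2 (by omega)) h

theorem goodH_P (M : ℕ) (hM : 1 ≤ M) : GoodH (M + 1) M (M + 1) 0 (cP M) (PA M) (PB M) := by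
  refine ⟨?_, ?_, ?_⟩
  · intro i hi t ht
    rw [coeffA M i t (by omega), coeffB M i t (by omega)]
  · intro i hi
    rcases Nat.lt_or_ge i (M + 1) with h | h
    · obtain ⟨ρ, h1, h2, h3⟩ := strA (m := M) (i := i) (by omega)
      refine ⟨ρ, h1, ?_, ?_⟩
      · rw [h2, sub_self]
        exact dvd_zero _
      · rw [h3]
        unfold cP
        rw [if_neg (by omega)]
    · obtain rfl : i = M + 1 := by omega
      have hb := bin (-X : ℚ[X]) (M + 2) (M + 3) (by omega)
      rw [Finset.sum_range_succ, Nat.choose_self, Nat.cast_one, one_mul, ← sub_eq_add_neg] at hb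
      refine ⟨∑ t ∈ Finset.range (M + 2), (((M + 2).choose t : ℕ) : ℚ[X]) * (-X) ^ t, ?_, ?_, ?_⟩
      · refine Polynomial.natDegree_sum_le_of_forall_le _ _ fun t ht => degc _ ?_
        have := Finset.mem_range.1 ht
        refine (Polynomial.natDegree_pow_le).trans ?_
        rw [Polynomial.natDegree_neg, Polynomial.natDegree_X]
        omega
      · have e : (∑ t ∈ Finset.range (M + 2), (((M + 2).choose t : ℕ) : ℚ[X]) * (-X) ^ t) =
            (1 - X) ^ (M + 2) - (-X) ^ (M + 2) := by
          rw [← hb]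
          ring
        rw [e, PA_top]
        refine ⟨(1 - X) ^ M * (-1) ^ (M + 2), ?_⟩
        rw [neg_pow (X : ℚ[X]) (M + 2), show 2 * (M + 1) = M + (M + 2) by ring,
          show M + 1 + 1 = M + 2 by ring, pow_add]
        ring
      · have e := congrArg (Polynomial.eval 1) hb
        rw [Polynomial.eval_add] at e
        simp only [Polynomial.eval_pow, Polynomial.eval_neg, Polynomial.eval_sub,
          Polynomial.eval_one, Polynomial.eval_X, sub_self] at e
        rw [zero_pow (by omega)] at e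
        unfold cP
        rw [if_pos rfl, pow_succ (-1 : ℚ) M]
        rw [pow_succ, pow_succ] at e
        linarith
  · intro t ht
    rcases Nat.eq_zero_or_pos t with h0 | h0
    · subst h0
      refine ⟨1, by simp, ?_, fun _ => rfl, fun h => by omega⟩
      rw [mul_zero, pow_zero, one_mul, mul_one, PB_zero]
    rcases Nat.lt_or_ge t (M + 1) with h | h
    · obtain ⟨g, h1, h2⟩ := strB (m := M) (t := t) (by omega)
      exact ⟨g, h1, h2, fun h => by omega, fun h => by omega⟩
    · obtain rfl : t = M + 1 := by omega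
      refine ⟨0, by simp, ?_, fun h => by omega, fun _ => by simp⟩
      rw [PB_top, mul_zero, mul_zero]

theorem goodH_Q (L : ℕ) (hL : 2 ≤ L) :
    GoodH L L (L + 1) ((-1) ^ L) (fun i => ((L - i).choose i : ℚ)) (PA L) (PB L) := by
  refine ⟨?_, ?_, ?_⟩
  · intro i hi t ht
    rw [coeffA L i t (by omega), coeffB L i t (by omega)]
  · intro i hi
    obtain ⟨ρ, h1, h2, h3⟩ := strA (m := L) (i := i) (by omega)
    refine ⟨ρ, h1, ?_, h3⟩
    rw [h2, sub_self]
    exact dvd_zero _
  · intro t ht
    rcases Nat.eq_zero_or_pos t with h0 | h0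
    · subst h0
      refine ⟨1, by simp, ?_, fun _ => rfl, fun h => by omega⟩
      rw [mul_zero, pow_zero, one_mul, mul_one, PB_zero]
    rcases Nat.lt_or_ge t L with h | h
    · obtain ⟨g, h1, h2⟩ := strB (m := L) (t := t) (by omega)
      exact ⟨g, h1, h2, fun h => by omega, fun h => by omega⟩
    · obtain rfl : t = L := by omega
      refine ⟨C ((-1) ^ t) * (1 + X) ^ (t - 1), ?_, ?_, fun h => by omega, fun _ => ?_⟩
      · exact (Polynomial.natDegree_C_mul_le _ _).trans (degv _)
      · rw [PB_self t (by omega), show 2 * t = (t + 1) + (t - 1) by omega, pow_add]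
        ring
      · rw [Polynomial.coeff_C_mul, Polynomial.coeff_one_add_X_pow, Nat.choose_self, Nat.cast_one,
          mul_one]

/-! ## the values -/

theorem cp_two (c d : ℕ → ℚ) (n : ℕ) (p q : ℕ × ℕ)
    (hp : p ∈ Finset.HasAntidiagonal.antidiagonal n)
    (hq : q ∈ Finset.HasAntidiagonal.antidiagonal n) (hpq : p ≠ q)
    (h : ∀ r ∈ Finset.HasAntidiagonal.antidiagonal n, r ≠ p → r ≠ q → 0 ≤ c r.1 * d r.2) :
    c p.1 * d p.2 + c q.1 * d q.2 ≤ cp c d n := by
  unfold cp
  rw [← Finset.add_sum_erase _ _ hp, ← Finset.add_sum_erase _ _ (Finset.mem_erase.2 ⟨hpq.symm, hq⟩)]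
  have h0 : 0 ≤ ∑ x ∈ ((Finset.HasAntidiagonal.antidiagonal n).erase p).erase q,
      c x.1 * d x.2 := by
    refine Finset.sum_nonneg fun r hr => ?_
    obtain ⟨h1, h2⟩ := Finset.mem_erase.1 hr
    obtain ⟨h3, h4⟩ := Finset.mem_erase.1 h2
    exact h r h4 h3 h1
  linarith

theorem cp_zero (c d : ℕ → ℚ) : cp c d 0 = c 0 * d 0 := by
  unfold cp
  rw [Finset.Nat.antidiagonal_zero, Finset.sum_singleton]

theorem cp_nonneg {c d : ℕ → ℚ} {n : ℕ} (hc : ∀ i ≤ n, 0 ≤ c i) (hd : ∀ i ≤ n, 0 ≤ d i) :
    0 ≤ cp c d n := by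
  refine Finset.sum_nonneg fun r hr => ?_
  have := ad hr
  exact mul_nonneg (hc _ (by omega)) (hd _ (by omega))

/-- the lower bounds -/
structure Inv (M : ℕ) (x K F : ℚ) (c : ℕ → ℚ) : Prop where
  z : c 0 = 1
  nn : ∀ i ≤ M, 0 ≤ c i
  k : K ≤ c M
  f : (-1) ^ (M + 1) * x + F ≤ c (M + 1)

theorem inv_x {M : ℕ} (hM : 1 ≤ M) (x : ℕ) : ∃ a a' c, GoodH (M + 1) (M * x) ((M + 1) * x) 0 c a a' ∧
    Inv M x 0 0 c ∧ ∀ q, M = 2 * q → (x : ℚ) ≤ c q ∧ (x : ℚ) * (x - 1) / 2 ≤ c M := by
  induction x with
  | zero =>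
    refine ⟨un, un, cu, ?_, ?_, ?_⟩
    · exact goodH_un (M + 1) (by omega)
    · refine ⟨?_, ?_, ?_, ?_⟩
      · unfold cu; rw [if_pos rfl]
      · intro i _
        unfold cu
        split_ifs <;> norm_num
      · unfold cu
        split_ifs <;> norm_num
      · unfold cu
        rw [if_neg (by omega)]
        simp
    · intro q hq
      unfold cu
      rw [if_neg (by omega), if_neg (by omega)]
      simp
  | succ x ih =>
    obtain ⟨a, a', c, G, I, J⟩ := ih
    have hP0 : cP M 0 = 1 := by
      unfold cP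
      rw [if_neg (by omega)]
      simp
    have hPn : ∀ i ≤ M, 0 ≤ cP M i := by
      intro i hi
      unfold cP
      rw [if_neg (by omega)]
      exact Nat.cast_nonneg _
    have hPt : cP M (M + 1) = (-1) ^ (M + 1) := by
      unfold cP
      rw [if_pos rfl]
    refine ⟨cp a (PA M), cp a' (PB M), cp c (cP M), ?_, ?_, ?_⟩
    · have := G.mul (by omega) (goodH_P M hM)
      have e1 : M * (x + 1) = M * x + M := by ring
      have e2 : (M + 1) * (x + 1) = (M + 1) * x + (M + 1) := by ring
      rw [e1, e2]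
      simpa using this
    · refine ⟨?_, ?_, ?_, ?_⟩
      · rw [cp_zero, I.z, hP0, one_mul]
      · intro i hi
        exact cp_nonneg (fun j hj => I.nn j (by omega)) (fun j hj => hPn j (by omega))
      · exact cp_nonneg (fun j hj => I.nn j (by omega)) (fun j hj => hPn j (by omega))
      · have h1 := cp_two c (cP M) (M + 1) (M + 1, 0) (0, M + 1)
          (by rw [Finset.HasAntidiagonal.mem_antidiagonal]; simp) (by
            rw [Finset.HasAntidiagonal.mem_antidiagonal]
            simp)
          (by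
            intro h
            have := congrArg Prod.fst h
            simp only at this
            omega)
          (by
            rintro ⟨i, j⟩ hr hr1 hr2
            have hij := ad hr
            simp only at hij
            have hi0 : i ≠ 0 := by
              rintro rfl
              apply hr2
              rw [Prod.mk.injEq]
              omega
            have hj0 : j ≠ 0 := by
              rintro rfl
              apply hr1
              rw [Prod.mk.injEq]
              omega
            exact mul_nonneg (I.nn _ (by omega)) (hPn _ (by omega)))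
        simp only at h1
        rw [hP0, hPt, I.z] at h1
        have h2 := I.f
        push_cast
        linarith
    · intro q hq
      obtain ⟨J1, J2⟩ := J q hq
      have hPq : cP M q = 1 := by
        unfold cP
        rw [if_neg (by omega), show M - q = q by omega, Nat.choose_self]
        simp
      have h1 := cp_two c (cP M) q (q, 0) (0, q)
          (by rw [Finset.HasAntidiagonal.mem_antidiagonal]; simp) (by
            rw [Finset.HasAntidiagonal.mem_antidiagonal]
            simp)
          (by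
            intro h
            have := congrArg Prod.fst h
            simp only at this
            omega)
          (by
            rintro r hr _ _
            have hij := ad hr
            exact mul_nonneg (I.nn _ (by omega)) (hPn _ (by omega)))
      have h2 := cp_two c (cP M) M (M, 0) (q, q)
          (by rw [Finset.HasAntidiagonal.mem_antidiagonal]; simp) (by
            rw [Finset.HasAntidiagonal.mem_antidiagonal]
            simp only
            omega)
          (by
            intro h
            have := congrArg Prod.fst h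
            simp only at this
            omega)
          (by
            rintro r hr _ _
            have hij := ad hr
            exact mul_nonneg (I.nn _ (by omega)) (hPn _ (by omega)))
      simp only at h1 h2
      rw [hP0, hPq, I.z] at h1
      rw [hP0, hPq] at h2
      push_cast
      constructor <;> linarith

theorem inv_y {M : ℕ} (hM : 1 ≤ M) (x y : ℕ) : ∃ a a' c, GoodH (M + 1) (M * x + (M + 1) * y)
    ((M + 1) * x + (M + 2) * y) (y * (-1) ^ (M + 1)) c a a' ∧
    ∃ K : ℚ, 0 ≤ K ∧ (∀ q, M = 2 * q → K = (x : ℚ) * (x - 1) / 2) ∧ Inv M x K (y * K) c := by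
  induction y with
  | zero =>
    obtain ⟨a, a', c, G, I, J⟩ := inv_x hM x
    refine ⟨a, a', c, by simpa using G, ?_⟩
    by_cases hq : ∃ q, M = 2 * q
    · obtain ⟨q, hq⟩ := hq
      obtain ⟨-, J2⟩ := J q hq
      refine ⟨(x : ℚ) * (x - 1) / 2, ?_, fun _ _ => rfl, ⟨I.z, I.nn, J2, ?_⟩⟩
      · rcases Nat.eq_zero_or_pos x with h | h
        · subst h; simp
        · have : (1 : ℚ) ≤ x := by exact_mod_cast h
          have h3 : (0 : ℚ) ≤ x - 1 := by linarith
          positivity
      · have := I.f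
        simpa using this
    · refine ⟨0, le_rfl, fun q h => absurd ⟨q, h⟩ hq, ⟨I.z, I.nn, I.k, ?_⟩⟩
      have := I.f
      simpa using this
  | succ y ih =>
    obtain ⟨a, a', c, G, K, hK, hKq, I⟩ := ih
    refine ⟨cp a (PA (M + 1)), cp a' (PB (M + 1)),
      cp c (fun i => ((M + 1 - i).choose i : ℚ)), ?_, K, hK, hKq, ?_⟩
    · have := G.mul (by omega) (goodH_Q (M + 1) (by omega))
      have e1 : M * x + (M + 1) * (y + 1) = M * x + (M + 1) * y + (M + 1) := by ring
      have e2 : (M + 1) * x + (M + 2) * (y + 1) = (M + 1) * x + (M + 2) * y + (M + 1 + 1) := by ring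
      have e3 : ((y + 1 : ℕ) : ℚ) * (-1) ^ (M + 1) = y * (-1) ^ (M + 1) + (-1) ^ (M + 1) := by
        push_cast
        ring
      rw [e1, e2, e3]
      exact this
    · have hQn : ∀ i, (0 : ℚ) ≤ ((M + 1 - i).choose i : ℚ) := fun i => Nat.cast_nonneg _
      refine ⟨?_, ?_, ?_, ?_⟩
      · rw [cp_zero, I.z]
        simp
      · intro i hi
        exact cp_nonneg (fun j hj => I.nn j (by omega)) (fun j _ => hQn j)
      · have h1 := cp_two c (fun i => ((M + 1 - i).choose i : ℚ)) M (M, 0) (0, M)
          (by rw [Finset.HasAntidiagonal.mem_antidiagonal]; simp) (by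
            rw [Finset.HasAntidiagonal.mem_antidiagonal]
            simp)
          (by
            intro h
            have := congrArg Prod.fst h
            simp only at this
            omega)
          (by
            rintro r hr _ _
            have hij := ad hr
            exact mul_nonneg (I.nn _ (by omega)) (hQn _))
        simp only at h1
        have h2 := hQn M
        have h3 := I.k
        rw [I.z, Nat.sub_zero, Nat.choose_zero_right, Nat.cast_one] at h1
        linarith
      · have h1 := cp_two c (fun i => ((M + 1 - i).choose i : ℚ)) (M + 1) (M + 1, 0) (M, 1)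
          (by rw [Finset.HasAntidiagonal.mem_antidiagonal]; simp) (by
            rw [Finset.HasAntidiagonal.mem_antidiagonal])
          (by
            intro h
            have := congrArg Prod.fst h
            simp only at this
            omega)
          (by
            rintro ⟨i, j⟩ hr hr1 hr2
            have hij := ad hr
            simp only at hij
            have hj0 : j ≠ 0 := by
              rintro rfl
              apply hr1
              rw [Prod.mk.injEq]
              omega
            exact mul_nonneg (I.nn _ (by omega)) (hQn _))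
        simp only at h1
        have h3 := I.k
        have h4 := I.f
        rw [Nat.sub_zero, Nat.choose_zero_right, Nat.cast_one, Nat.choose_one_right,
          show M + 1 - 1 = M by omega] at h1
        have h5 : K ≤ c M * M := by
          have h6 : (1 : ℚ) ≤ M := by exact_mod_cast hM
          have h7 : 0 ≤ c M := I.nn M le_rfl
          nlinarith
        push_cast
        linarith

theorem exists_solH {M m h e : ℕ} (hM : 1 ≤ M) (he : 5 ≤ e) (hh : h = m + e) (hm1 : M * e < m)
    (hm2 : 2 * m < (2 * M + 1) * e) : ∃ b : ℕ → ℕ → ℚ,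
    (∀ i ≤ M + 1, ∃ r : ℚ[X], r.natDegree ≤ i ∧
      (∀ t ≤ M + 1, b t i = ((1 - X) ^ (m - 2 * i) * r).coeff t) ∧
      (i = M + 1 → r.eval 1 ≠ 0)) ∧
    (∀ t ≤ M + 1, ∃ g : ℚ[X], g.natDegree ≤ t - 1 ∧
      ∀ i ≤ M + 1, b t i =
        ((1 + X) ^ (if t = M + 1 then h - (2 * M + 3) else h - 2 * t) * g).coeff i) := by
  have hm2' : 2 * m < 2 * (M * e) + e := by
    have : (2 * M + 1) * e = 2 * (M * e) + e := by ring
    omega
  obtain ⟨y, hy⟩ : ∃ y, m = M * e + y := ⟨m - M * e, by omega⟩
  obtain ⟨x, hx⟩ : ∃ x, e = x + y := ⟨e - y, by omega⟩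
  have hx3 : 3 ≤ x := by omega
  have hxy : y < x := by omega
  have hy1 : 1 ≤ y := by omega
  obtain ⟨a, a', c, G, K, hK, hKq, I⟩ := inv_y hM x y
  have e1 : M * x + (M + 1) * y = m := by
    rw [hy, hx]
    ring
  have e2 : (M + 1) * x + (M + 2) * y = h := by
    rw [hh, hy, hx]
    ring
  rw [e1, e2] at G
  have hMe : 5 * M ≤ M * e := by
    have := Nat.mul_le_mul_left M he
    omega
  have hpos : 0 < c (M + 1) - y * (-1) ^ (M + 1) := by
    have h1 := I.f
    have hxQ : (3 : ℚ) ≤ x := by exact_mod_cast hx3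
    have hyQ : (1 : ℚ) ≤ y := by exact_mod_cast hy1
    have hxyQ : (y : ℚ) < x := by exact_mod_cast hxy
    rcases Nat.even_or_odd M with hev | hod
    · obtain ⟨q, hq⟩ := hev
      have hK' := hKq q (by omega)
      have hs : (-1 : ℚ) ^ (M + 1) = -1 := by
        rw [pow_succ, Even.neg_one_pow ⟨q, hq⟩, one_mul]
      rw [hs] at h1 ⊢
      have h2 : (x : ℚ) ≤ K := by
        rw [hK']
        nlinarith
      have h3 : (x : ℚ) ≤ y * K := by nlinarith
      linarith
    · have hs : (-1 : ℚ) ^ (M + 1) = 1 := by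
        rw [pow_succ, Odd.neg_one_pow hod]
        norm_num
      rw [hs] at h1 ⊢
      have h2 : 0 ≤ y * K := by positivity
      linarith
  have hv : (1 + X : ℚ[X]) ≠ 0 := by
    intro h0
    have := congrArg (Polynomial.eval 0) h0
    simp at this
  set gt : ℚ := y * (-1) ^ (M + 1) with hgt
  refine ⟨fun t i => (a i).coeff t - (if t = M + 1 ∧ i = M + 1 then gt else 0), ?_, ?_⟩
  · intro i hi
    obtain ⟨ρ, h1, h2, h3⟩ := G.s1 i hi
    have h4 : ∀ t ≤ M + 1, (a i).coeff t = ((1 - X) ^ (m - 2 * i) * ρ).coeff t := by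
      intro t ht
      have h5 : (1 - X : ℚ[X]) ^ (2 * i) * a i - (1 - X) ^ m * ρ =
          (1 - X) ^ (2 * i) * (a i - (1 - X) ^ (m - 2 * i) * ρ) := by
        have : (1 - X : ℚ[X]) ^ m = (1 - X) ^ (2 * i) * (1 - X) ^ (m - 2 * i) := by
          rw [← pow_add]
          congr 1
          omega
        rw [this]
        ring
      rw [h5] at h2
      have h6 : (X : ℚ[X]) ^ (M + 1 + 1) ∣ a i - (1 - X) ^ (m - 2 * i) * ρ :=
        (IsCoprime.pow cop1).dvd_of_dvd_mul_left h2
      rw [X_pow_dvd_iff] at h6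
      have h7 := h6 t (by omega)
      rw [coeff_sub] at h7
      linarith
    by_cases hiM : i = M + 1
    · subst hiM
      refine ⟨ρ - C gt * X ^ (M + 1), ?_, ?_, ?_⟩
      · refine (natDegree_sub_le _ _).trans (max_le h1 ?_)
        exact natDegree_C_mul_X_pow_le _ _
      · intro t ht
        show (a (M + 1)).coeff t - (if t = M + 1 ∧ M + 1 = M + 1 then gt else 0) = _
        have h8 : ((1 - X : ℚ[X]) ^ (m - 2 * (M + 1)) * (ρ - C gt * X ^ (M + 1))).coeff t =
            ((1 - X) ^ (m - 2 * (M + 1)) * ρ).coeff t -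
            (C gt * ((1 - X) ^ (m - 2 * (M + 1)) * X ^ (M + 1))).coeff t := by
          rw [← coeff_sub]
          congr 1
          ring
        rw [h8, ← h4 t ht, coeff_C_mul, coeff_mul_X_pow']
        by_cases htM : t = M + 1
        · subst htM
          rw [if_pos ⟨rfl, rfl⟩, if_pos le_rfl, Nat.sub_self, coeff_zero_eq_eval_zero]
          simp
        · rw [if_neg (fun h => htM h.1), if_neg (by omega), mul_zero]
      · intro _
        rw [eval_sub, h3, eval_mul, eval_C, eval_pow, eval_X, one_pow, mul_one]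
        exact hpos.ne'
    · refine ⟨ρ, h1, fun t ht => ?_, fun h => absurd h hiM⟩
      show (a i).coeff t - (if t = M + 1 ∧ i = M + 1 then gt else 0) = _
      rw [if_neg (fun h => hiM h.2), sub_zero]
      exact h4 t ht
  · intro t ht
    obtain ⟨g, h1, h2, -, h3⟩ := G.s2 t ht
    have h4 : a' t = (1 + X) ^ (h - 2 * t) * g := by
      apply mul_left_cancel₀ (pow_ne_zero (2 * t) hv)
      rw [h2, ← mul_assoc, ← pow_add]
      congr 2
      omega
    by_cases htM : t = M + 1
    · subst htM
      have h5 := h3 rfl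
      rw [show M + 1 - 1 = M by omega] at h5 h1
      refine ⟨(1 + X) * g - C gt * X ^ (M + 1), ?_, ?_⟩
      · rw [show M + 1 - 1 = M by omega, natDegree_le_iff_coeff_eq_zero]
        intro n hn
        rw [coeff_sub, add_mul, one_mul, coeff_add, coeff_C_mul_X_pow]
        obtain ⟨k, rfl⟩ : ∃ k, n = k + 1 := ⟨n - 1, by omega⟩
        rw [coeff_X_mul, coeff_eq_zero_of_natDegree_lt (show g.natDegree < k + 1 by omega)]
        by_cases hk : k = M
        · subst hk
          rw [if_pos rfl, h5]
          ring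
        · rw [if_neg (by omega), coeff_eq_zero_of_natDegree_lt (show g.natDegree < k by omega)]
          ring
      · intro i hi
        show (a i).coeff (M + 1) - (if M + 1 = M + 1 ∧ i = M + 1 then gt else 0) = _
        rw [if_pos (rfl : M + 1 = M + 1)]
        have h8 : ((1 + X : ℚ[X]) ^ (h - (2 * M + 3)) * ((1 + X) * g - C gt * X ^ (M + 1))).coeff i =
            (a' (M + 1)).coeff i -
            (C gt * ((1 + X) ^ (h - (2 * M + 3)) * X ^ (M + 1))).coeff i := by
          rw [h4, ← coeff_sub]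
          congr 1
          have : (1 + X : ℚ[X]) ^ (h - 2 * (M + 1)) =
              (1 + X) ^ (h - (2 * M + 3)) * (1 + X) := by
            rw [← pow_succ]
            congr 1
            omega
          rw [this]
          ring
        rw [h8, ← G.rel i hi (M + 1) le_rfl, coeff_C_mul, coeff_mul_X_pow']
        by_cases hiM : i = M + 1
        · subst hiM
          rw [if_pos ⟨rfl, rfl⟩, if_pos le_rfl, Nat.sub_self, coeff_zero_eq_eval_zero]
          simp
        · rw [if_neg (fun h => hiM h.2), if_neg (by omega), mul_zero]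
    · refine ⟨g, h1, fun i hi => ?_⟩
      show (a i).coeff t - (if t = M + 1 ∧ i = M + 1 then gt else 0) = _
      rw [if_neg (fun h => htM h.1), sub_zero, if_neg htM, ← h4]
      exact G.rel i hi t ht

/-- AX piece C2H -/
theorem coreH {M m h e : ℕ} (hM : 1 ≤ M) (hM9 : M ≤ 9) (he : 5 ≤ e) (hh : h = m + e)
    (hm1 : M * e < m) (hm2 : 2 * m < (2 * M + 1) * e) (b : ℕ → ℕ → ℚ)
    (h1 : ∀ i ≤ M + 1, ∃ r : Polynomial ℚ, r.natDegree ≤ i ∧
      (∀ t ≤ M + 1, b t i = ((1 - X) ^ (m - 2 * i) * r).coeff t) ∧ (i = M + 1 → r.eval 1 = 0))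
    (h2 : ∀ t ≤ M, ∃ g : Polynomial ℚ, g.natDegree ≤ t - 1 ∧
      ∀ i ≤ M + 1, b t i = ((1 + X) ^ (h - 2 * t) * g).coeff i)
    (h3 : ∃ g : Polynomial ℚ, g.natDegree ≤ M ∧
      ∀ i ≤ M + 1, b (M + 1) i = ((1 + X) ^ (h - (2 * M + 3)) * g).coeff i) :
    b 0 0 = 0 := by
  obtain ⟨b', h1', h2'⟩ := exists_solH hM he hh hm1 hm2
  refine core_of_solE (m := m) (N := M + 1)
    (fun t => if t = M + 1 then h - (2 * M + 3) else h - 2 * t) b b' h1 ?_ h1' h2'
  intro t ht
  by_cases htM : t = M + 1
  · subst htM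
    obtain ⟨g, hg, hgc⟩ := h3
    refine ⟨g, by omega, fun i hi => ?_⟩
    simp only [if_true]
    exact hgc i hi
  · obtain ⟨g, hg, hgc⟩ := h2 t (by omega)
    refine ⟨g, hg, fun i hi => ?_⟩
    simp only [if_neg htM]
    exact hgc i hi

end Pool.Agent.E8helper54.AX
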